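import Pool.Agent.Q52.Bil.Inner

/-!
# MP_d967a3_an, Q1: billiard tables in `ℝⁿ`, `n ≥ 3`, other than ellipsoids, whose billiard map has
an invariant hypersurface

The definitions used by the statement (`Euc`, `IsTable`, `IsOuterNormal`, `outerNormal`,
`IsEllipsoid`, `lines`, `lineTangent`, `lineThrough`, `exitPoint`, `billiardMap`,
`IsInvariantHypersurface`) are in `Pool/Agent/H703R3/MBDefs.lean` (starting files).

The table is the body of revolution `‖x‖² + x₂⁴ ≤ 1` and the hypersurface is a level set of the
angular momentum `p₀ v₁ - p₁ v₀` of the oriented lines.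
-/

set_option autoImplicit false

namespace Pool.Agent.Results.MP_d967a3_an.BodiesOfRevolution

open Pool.Agent.H703R3.MB

/-- For every `n ≥ 3` there is a compact convex domain `Ω` in `ℝⁿ` with smooth, strictly convex
boundary, not an ellipsoid, such that the billiard map of `Ω` (a bijection of the space of oriented
lines which meet the interior of `Ω`; the outer normals are unique) has an invariant
hypersurface. -/
theorem result : ∀ n : ℕ, 3 ≤ n → ∃ Ω : Set (Euc n), IsTable Ω ∧ ¬ IsEllipsoid Ω ∧
    (∀ x ∈ frontier Ω, ∃! ν, IsOuterNormal Ω x ν) ∧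
    Set.BijOn (billiardMap Ω) (lines Ω) (lines Ω) ∧
    ∃ S : Set (Euc n × Euc n), IsInvariantHypersurface Ω S :=
  fun _ hn => Q52.Bil.main hn

end Pool.Agent.Results.MP_d967a3_an.BodiesOfRevolution
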